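import Pool.Agent.Work.MP_3098b6_lc.Main

/-! # Sets of ordinals in Magidor-Radin extensions are equivalent to subsets of the generic club

The Lean universe plays the role of the ground model `V`.  Definitions (file
`Pool/Agent/Work/MP_3098b6_lc/Defs.lean`):
* `IsNormalMeasure α W`, `CoherentSeq κ` : normal measures and coherent sequences
  `⟨U(α,β) : α ≤ κ, β < o(α)⟩`;
* `Cond S` with its order `q ≤ p` (`q` is stronger) : the Magidor-Radin forcing;
* `RO P` : the regular open subsets of `P`, the elements of the Boolean completion, with
  `RO.neg`, `RO.inf`; `Gen A` : the complete subalgebra generated by `A`;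
* a name of a subset of `I` is a function `a : I → RO P` (the Boolean values of `i ∈ A`);
  `Computes q c a` : below `q` all values of `a` lie in the complete subalgebra generated by the values
  of `c`, that is, `q` forces `A ∈ V[C']`;
* `inClub S γ` : the Boolean value of `γ ∈ C_G`.

The theorem: the conditions `q` which force `V[A] = V[C']` for some name `c` of a subset `C'` of the
generic club `C_G` are dense, for every name `a` of a set of ordinals. -/

namespace Pool.Agent.Results.MP_3098b6_lc.SubclubModels

open Set MR3098

universe u w

theorem result {κ : Ordinal.{u}} (S : CoherentSeq κ) (h0 : 0 < S.o κ) {I : Type w}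
    (a : I → RO (Cond S)) (p : Cond S) :
    ∃ q ≤ p, ∃ c : Ordinal.{u} → RO (Cond S),
      (∀ γ, (c γ).carrier ⊆ (inClub S γ).carrier) ∧ Computes q c a ∧ Computes q a c :=
  main_theorem h0 a p

end Pool.Agent.Results.MP_3098b6_lc.SubclubModels
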